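import Pool.Agent.U671.VS.Defs
import Pool.Agent.U671.SD.Sharp
import Pool.Agent.H430R2.PermCubes.Defs

/-!
Variational sets of linear forms with small coefficients.
-/

set_option autoImplicit false

namespace Pool.Agent.U671.VS

open MvPolynomial Finset Pool.Agent.H430R2.PermCubes

open scoped Classical

/-- A multiple of `(1, t, …, t ^ (m - 1))` modulo `q` with small coordinates. -/
theorem small (m q s : ℕ) (hm : 1 ≤ m) (hs : s < q) (h : q ^ (m - 1) < (s + 1) ^ m)
    (t : ZMod q) : ∃ b : Fin m → ℤ, (∀ i, |b i| ≤ s) ∧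
      ∃ l : ZMod q, l ≠ 0 ∧ ∀ i : Fin m, ((b i : ℤ) : ZMod q) = l * t ^ (i : ℕ) := by
  obtain ⟨m', rfl⟩ : ∃ m', m = m' + 1 := ⟨m - 1, by omega⟩
  have : NeZero q := ⟨by omega⟩
  let F : (Fin (m' + 1) → Fin (s + 1)) → (Fin m' → ZMod q) := fun a i =>
    ((a i.succ : ℕ) : ZMod q) - t ^ (i.succ : ℕ) * ((a 0 : ℕ) : ZMod q)
  have hcard : Fintype.card (Fin m' → ZMod q) < Fintype.card (Fin (m' + 1) → Fin (s + 1)) := by
    rw [Fintype.card_fun, Fintype.card_fun, Fintype.card_fin, Fintype.card_fin, Fintype.card_fin,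
      ZMod.card]
    exact h
  obtain ⟨a, a', haa, hF⟩ := Fintype.exists_ne_map_eq_of_card_lt F hcard
  have hb : ∀ i, |((a i : ℕ) : ℤ) - ((a' i : ℕ) : ℤ)| ≤ s := by
    intro i
    have h1 := (a i).isLt
    have h2 := (a' i).isLt
    rw [abs_le]
    constructor <;> omega
  have hmul : ∀ i : Fin (m' + 1), (((((a i : ℕ) : ℤ) - ((a' i : ℕ) : ℤ) : ℤ)) : ZMod q) =
      ((((a 0 : ℕ) : ℤ) - ((a' 0 : ℕ) : ℤ) : ℤ) : ZMod q) * t ^ (i : ℕ) := by
    intro i
    refine Fin.cases ?_ (fun i => ?_) i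
    · simp
    · have h1 := congrFun hF i
      simp only [F] at h1
      push_cast
      have h2 : ((a i.succ : ℕ) : ZMod q) = ((a' i.succ : ℕ) : ZMod q) -
          t ^ (i.succ : ℕ) * ((a' 0 : ℕ) : ZMod q) + t ^ (i.succ : ℕ) * ((a 0 : ℕ) : ZMod q) := by
        rw [← h1]
        ring
      rw [h2]
      simp only [Fin.val_succ]
      ring
  refine ⟨fun i => ((a i : ℕ) : ℤ) - ((a' i : ℕ) : ℤ), hb, _, ?_, hmul⟩
  intro h0
  apply haa
  funext i
  have h1 := hmul i
  rw [h0, zero_mul, ZMod.intCast_zmod_eq_zero_iff_dvd] at h1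
  have h2 := Int.eq_zero_of_abs_lt_dvd h1 (lt_of_le_of_lt (hb i) (by exact_mod_cast hs))
  ext
  omega

theorem linear (m q n : ℕ) (hm : 2 ≤ m) (hq : q.Prime) (hn : 2 ≤ n)
    (hpf : ∀ r : ℕ, r.Prime → r ∣ n → m.factorial * q ^ (m - 1) < r) :
    ∃ (C : Fin (q - 1) → (Fin m → Fin n) → Fin n) (D : ℕ), IsVariationalSet m n (q - 1) C ∧
      D ^ m ≤ (6 * m) ^ m * (q - 1) ^ (m - 1) ∧ Exactly m D (fun x i => ((x i : ℕ) : ℝ)) C := by
  have hq2 := hq.two_le
  have : Fact q.Prime := ⟨hq⟩
  obtain ⟨s, hs1, hs2⟩ := Pool.Agent.U671.SD.exists_root m (q ^ (m - 1)) (by omega)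
  have hqm : 1 ≤ q ^ (m - 1) := Nat.one_le_pow _ _ (by omega)
  have hs0 : 1 ≤ s := by
    by_contra hcon
    have : s = 0 := by omega
    rw [this, zero_add, one_pow] at hs2
    omega
  have hsq : s < q := by
    refine lt_of_pow_lt_pow_left₀ m (Nat.zero_le _) (lt_of_le_of_lt hs1 ?_)
    exact Nat.pow_lt_pow_right (by omega) (by omega)
  choose b hb1 hb2 using fun j : Fin (q - 1) =>
    small m q s (by omega) hsq hs2 (((j : ℕ) + 1 : ℕ) : ZMod q)
  choose l hl0 hl using hb2
  have ht0 : ∀ j : Fin (q - 1), ((((j : ℕ) + 1 : ℕ) : ZMod q)) ≠ 0 := by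
    intro j h0
    rw [ZMod.natCast_eq_zero_iff] at h0
    have h1 := Nat.le_of_dvd (by omega) h0
    have h2 := j.isLt
    omega
  have hfac : 1 ≤ m.factorial := Nat.one_le_iff_ne_zero.2 (Nat.factorial_ne_zero m)
  -- coprimality with `n`
  have hcop : ∀ z : ℤ, z ≠ 0 → |z| ≤ ((m.factorial * q ^ (m - 1) : ℕ) : ℤ) →
      IsCoprime (n : ℤ) z := by
    intro z hz0 hz
    rw [Int.isCoprime_iff_gcd_eq_one]
    by_contra hcon
    obtain ⟨r, hr, hrd⟩ := Nat.exists_prime_and_dvd hcon
    have h1 : (r : ℤ) ∣ n := (Int.natCast_dvd_natCast.2 hrd).trans (Int.gcd_dvd_left _ _)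
    have h2 : (r : ℤ) ∣ z := (Int.natCast_dvd_natCast.2 hrd).trans (Int.gcd_dvd_right _ _)
    have h3 := hpf r hr (Int.natCast_dvd_natCast.1 h1)
    have h4 : (r : ℤ) ≤ |z| := Int.le_of_dvd (abs_pos.2 hz0) ((dvd_abs _ _).2 h2)
    have h5 : (r : ℤ) ≤ ((m.factorial * q ^ (m - 1) : ℕ) : ℤ) := h4.trans hz
    have h6 : r ≤ m.factorial * q ^ (m - 1) := by exact_mod_cast h5
    omega
  have hbne : ∀ j i, b j i ≠ 0 := by
    intro j i h0
    have h1 := hl j i
    rw [h0, Int.cast_zero] at h1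
    exact mul_ne_zero (hl0 j) (pow_ne_zero _ (ht0 j)) h1.symm
  have hbcop : ∀ j i, IsCoprime (n : ℤ) (b j i) := by
    intro j i
    refine hcop _ (hbne j i) ((hb1 j i).trans ?_)
    have h1 : s ≤ m.factorial * q ^ (m - 1) := by
      calc s = s ^ 1 := (pow_one _).symm
        _ ≤ s ^ m := Nat.pow_le_pow_right hs0 (by omega)
        _ ≤ q ^ (m - 1) := hs1
        _ ≤ m.factorial * q ^ (m - 1) := Nat.le_mul_of_pos_left _ (by omega)
    exact_mod_cast h1
  -- the cubes
  set f : Fin (q - 1) → (Fin m → Fin n) → ℤ := fun j x => ∑ i, b j i * ((x i : ℕ) : ℤ) with hf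
  have hn0 : (0 : ℤ) < n := by exact_mod_cast (by omega : 0 < n)
  let C : Fin (q - 1) → (Fin m → Fin n) → Fin n := fun j x => ⟨(f j x % n).toNat, by
    have h1 := Int.emod_nonneg (f j x) (ne_of_gt hn0)
    have h2 := Int.emod_lt_of_pos (f j x) hn0
    omega⟩
  have hCv : ∀ j x (v : Fin n), C j x = v ↔ (n : ℤ) ∣ f j x - ((v : ℕ) : ℤ) := by
    intro j x v
    have h1 := Int.emod_nonneg (f j x) (ne_of_gt hn0)
    have hv : ((v : ℕ) : ℤ) % n = ((v : ℕ) : ℤ) := by
      refine Int.emod_eq_of_lt (by positivity) ?_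
      exact_mod_cast v.isLt
    rw [Fin.ext_iff]
    change (f j x % n).toNat = (v : ℕ) ↔ _
    constructor
    · intro h
      have h2 : f j x % n = ((v : ℕ) : ℤ) := by omega
      refine ⟨f j x / n, ?_⟩
      have h3 := Int.emod_add_mul_ediv (f j x) n
      linarith
    · intro h
      have h2 : ((v : ℕ) : ℤ) % n = f j x % n := Int.modEq_iff_dvd.2 h
      omega
  have hCC : ∀ j x y, C j x = C j y → (n : ℤ) ∣ f j x - f j y := by
    intro j x y h
    have h1 := (hCv j x (C j y)).1 h
    have h2 := (hCv j y (C j y)).1 rfl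
    have h3 := dvd_sub h1 h2
    have h4 : f j x - ((C j y : ℕ) : ℤ) - (f j y - ((C j y : ℕ) : ℤ)) = f j x - f j y := by ring
    rwa [h4] at h3
  have hfin : ∀ a a' : Fin n, (n : ℤ) ∣ ((a : ℕ) : ℤ) - ((a' : ℕ) : ℤ) → a = a' := by
    intro a a' h
    have h1 := a.isLt
    have h2 := a'.isLt
    have h3 : |((a : ℕ) : ℤ) - ((a' : ℕ) : ℤ)| < n := by
      rw [abs_lt]
      constructor <;> omega
    have h4 := Int.eq_zero_of_abs_lt_dvd h h3
    ext
    omega
  refine ⟨C, 2 * (m * s) + 1, ⟨?_, ?_⟩, ?_, ?_⟩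
  · -- permutation cubes
    intro j i x
    refine Finite.injective_iff_bijective.1 ?_
    intro t t' htt
    have h1 := hCC j _ _ htt
    have h2 : f j (Function.update x i t) - f j (Function.update x i t') =
        b j i * (((t : ℕ) : ℤ) - ((t' : ℕ) : ℤ)) := by
      rw [hf]
      simp only
      rw [← Finset.sum_sub_distrib, Finset.sum_eq_single i]
      · simp only [Function.update_self]
        ring
      · intro i' _ hi'
        simp only [Function.update_of_ne hi', sub_self]
      · intro h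
        exact absurd (mem_univ _) h
    rw [h2] at h1
    exact hfin t t' ((hbcop j i).dvd_of_dvd_mul_left h1)
  · -- any `m` of them
    intro e he
    refine Finite.injective_iff_bijective.1 ?_
    intro x y hxy
    set M : Matrix (Fin m) (Fin m) ℤ := Matrix.of (fun a i => b (e a) i) with hM
    have hdet0 : M.det ≠ 0 := by
      intro h0
      have h1 : (Int.castRingHom (ZMod q)) M.det = 0 := by rw [h0, map_zero]
      rw [RingHom.map_det] at h1
      have h2 : (Int.castRingHom (ZMod q)).mapMatrix M =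
          Matrix.diagonal (fun a => l (e a)) *
            Matrix.vandermonde (fun a => ((((e a : ℕ) + 1 : ℕ) : ZMod q))) := by
        ext a i
        rw [Matrix.diagonal_mul, Matrix.vandermonde_apply, RingHom.mapMatrix_apply,
          Matrix.map_apply, hM, Matrix.of_apply]
        exact hl (e a) i
      rw [h2, Matrix.det_mul, Matrix.det_diagonal] at h1
      rcases mul_eq_zero.1 h1 with h3 | h3
      · rw [Finset.prod_eq_zero_iff] at h3
        obtain ⟨a, _, ha⟩ := h3
        exact hl0 _ ha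
      · refine Matrix.det_vandermonde_ne_zero_iff.2 ?_ h3
        intro a a' haa
        have h4 : ((((e a : ℕ) + 1 : ℕ) : ZMod q)) = ((((e a' : ℕ) + 1 : ℕ) : ZMod q)) := haa
        rw [ZMod.natCast_eq_natCast_iff'] at h4
        have h5 := (e a).isLt
        have h6 := (e a').isLt
        rw [Nat.mod_eq_of_lt (by omega), Nat.mod_eq_of_lt (by omega)] at h4
        exact he (Fin.ext (by omega))
    have hdet : |M.det| ≤ ((m.factorial * q ^ (m - 1) : ℕ) : ℤ) := by
      have h1 := Matrix.det_le (A := M) (abv := AbsoluteValue.abs) (x := (s : ℤ)) (by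
        intro a i
        exact hb1 (e a) i)
      rw [Fintype.card_fin, nsmul_eq_mul] at h1
      refine (show |M.det| ≤ _ from h1).trans ?_
      have h2 : m.factorial * s ^ m ≤ m.factorial * q ^ (m - 1) := Nat.mul_le_mul_left _ hs1
      exact_mod_cast h2
    have hdc := hcop _ hdet0 hdet
    have hdiv : ∀ a, (n : ℤ) ∣ (M.mulVec (fun i => ((x i : ℕ) : ℤ) - ((y i : ℕ) : ℤ))) a := by
      intro a
      have h1 := hCC (e a) x y (congrFun hxy a)
      have h2 : (M.mulVec (fun i => ((x i : ℕ) : ℤ) - ((y i : ℕ) : ℤ))) a =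
          f (e a) x - f (e a) y := by
        rw [hf]
        simp only
        rw [← Finset.sum_sub_distrib, Matrix.mulVec, dotProduct]
        refine Finset.sum_congr rfl fun i _ => ?_
        rw [hM, Matrix.of_apply]
        ring
      rw [h2]
      exact h1
    funext i
    refine hfin _ _ (IsCoprime.dvd_of_dvd_mul_left hdc ?_)
    have h3 : M.det * (((x i : ℕ) : ℤ) - ((y i : ℕ) : ℤ)) =
        (M.adjugate.mulVec (M.mulVec (fun i => ((x i : ℕ) : ℤ) - ((y i : ℕ) : ℤ)))) i := by
      rw [Matrix.mulVec_mulVec, Matrix.adjugate_mul, Matrix.smul_mulVec, Matrix.one_mulVec]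
      rfl
    rw [h3, Matrix.mulVec, dotProduct]
    exact Finset.dvd_sum fun a _ => (hdiv a).mul_left _
  · -- the complexity
    calc (2 * (m * s) + 1) ^ m ≤ (3 * (m * s)) ^ m := by
          refine Nat.pow_le_pow_left ?_ _
          have : 1 ≤ m * s := Nat.one_le_iff_ne_zero.2 (by positivity)
          omega
      _ = (3 * m) ^ m * s ^ m := by rw [← mul_pow]; ring
      _ ≤ (3 * m) ^ m * q ^ (m - 1) := Nat.mul_le_mul_left _ hs1
      _ ≤ (3 * m) ^ m * (2 * (q - 1)) ^ (m - 1) :=
        Nat.mul_le_mul_left _ (Nat.pow_le_pow_left (by omega) _)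
      _ = (3 * m) ^ m * 2 ^ (m - 1) * (q - 1) ^ (m - 1) := by rw [mul_pow 2]; ring
      _ ≤ (3 * m) ^ m * 2 ^ m * (q - 1) ^ (m - 1) := by
        gcongr
        · norm_num
        · omega
      _ = (6 * m) ^ m * (q - 1) ^ (m - 1) := by
        rw [← mul_pow]
        ring
  · -- the polynomials
    intro j v
    set lin : ℤ → MvPolynomial (Fin m) ℝ := fun c =>
      ∑ i, MvPolynomial.C ((b j i : ℤ) : ℝ) * X i -
        MvPolynomial.C (((v : ℕ) : ℝ) + (c : ℝ) * n) with hlin
    set g : MvPolynomial (Fin m) ℝ := ∏ c ∈ Finset.Icc (-((m * s : ℕ) : ℤ)) ((m * s : ℕ) : ℤ), lin c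
      with hg
    have hlindeg : ∀ c, (lin c).totalDegree ≤ 1 := by
      intro c
      refine (totalDegree_sub _ _).trans (max_le ?_ ?_)
      · refine (totalDegree_finsetSum _ _).trans (Finset.sup_le fun i _ => ?_)
        refine (totalDegree_mul _ _).trans ?_
        rw [totalDegree_C, totalDegree_X]
      · rw [totalDegree_C]
        exact Nat.zero_le _
    have hgdeg : g.totalDegree ≤ 2 * (m * s) + 1 := by
      refine (totalDegree_finsetProd _ _).trans ((Finset.sum_le_sum fun c _ => hlindeg c).trans ?_)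
      rw [Finset.sum_const, smul_eq_mul, mul_one, Int.card_Icc]
      omega
    refine ⟨{x | eval x g = 0}, ⟨1, fun _ => g, {σ | σ 0 = 0}, ?_, ?_⟩, ?_⟩
    · rw [Fin.sum_univ_one]
      exact hgdeg
    · intro x
      change eval x g = 0 ↔ SignType.sign (eval x g) = 0
      rw [sign_eq_zero_iff]
    · intro x
      change eval (fun i => ((x i : ℕ) : ℝ)) g = 0 ↔ C j x = v
      have hev : ∀ c : ℤ, eval (fun i => ((x i : ℕ) : ℝ)) (lin c) =
          (((f j x - (((v : ℕ) : ℤ) + c * n) : ℤ)) : ℝ) := by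
        intro c
        rw [hlin, hf]
        simp only [map_sub, map_sum, map_mul, eval_C, eval_X]
        push_cast
        rfl
      rw [hg, map_prod, Finset.prod_eq_zero_iff, hCv]
      constructor
      · rintro ⟨c, _, hc⟩
        rw [hev] at hc
        have h1 : f j x - (((v : ℕ) : ℤ) + c * n) = 0 := by exact_mod_cast hc
        exact ⟨c, by linarith⟩
      · rintro ⟨c, hc⟩
        have hfx : |f j x| ≤ (m * s : ℕ) * ((n : ℤ) - 1) := by
          rw [hf]
          refine (Finset.abs_sum_le_sum_abs _ _).trans ?_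
          have h1 : ∀ i ∈ (univ : Finset (Fin m)), |b j i * ((x i : ℕ) : ℤ)| ≤
              (s : ℤ) * ((n : ℤ) - 1) := by
            intro i _
            rw [abs_mul]
            refine mul_le_mul (hb1 j i) ?_ (abs_nonneg _) (by positivity)
            have := (x i).isLt
            rw [abs_of_nonneg (by positivity)]
            omega
          refine (Finset.sum_le_sum h1).trans ?_
          rw [Finset.sum_const, Finset.card_univ, Fintype.card_fin, nsmul_eq_mul]
          push_cast
          linarith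
        have hv := v.isLt
        have hv' : ((v : ℕ) : ℤ) ≤ n - 1 := by omega
        have hv0 : (0 : ℤ) ≤ ((v : ℕ) : ℤ) := by positivity
        have hms : (0 : ℤ) ≤ ((m * s : ℕ) : ℤ) := by positivity
        rw [abs_le] at hfx
        refine ⟨c, Finset.mem_Icc.2 ⟨?_, ?_⟩, ?_⟩
        · by_contra hcon
          push Not at hcon
          have h1 : c + 1 ≤ -((m * s : ℕ) : ℤ) := by omega
          have h2 : (n : ℤ) * (c + 1) ≤ n * (-((m * s : ℕ) : ℤ)) :=
            mul_le_mul_of_nonneg_left h1 hn0.le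
          nlinarith
        · by_contra hcon
          push Not at hcon
          have h1 : ((m * s : ℕ) : ℤ) + 1 ≤ c := by omega
          have h2 : (n : ℤ) * (((m * s : ℕ) : ℤ) + 1) ≤ n * c :=
            mul_le_mul_of_nonneg_left h1 hn0.le
          nlinarith
        · rw [hev]
          have h1 : f j x - (((v : ℕ) : ℤ) + c * n) = 0 := by linarith
          rw [h1, Int.cast_zero]

end Pool.Agent.U671.VS
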