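import Mathlib

/-!
Semialgebraic descriptions of the level sets of permutation cubes.
-/

set_option autoImplicit false

namespace Pool.Agent.U671.VS

open MvPolynomial Finset

open scoped Classical

/-- `S ⊆ ℝ^d` is a Boolean combination of conditions `g > 0`, `g = 0`, `g < 0` on finitely many
polynomials `g` for which the sum of the total degrees is at most `D`. -/
def SemiAlg (d D : ℕ) (S : Set (Fin d → ℝ)) : Prop :=
  ∃ (t : ℕ) (g : Fin t → MvPolynomial (Fin d) ℝ) (Φ : Set (Fin t → SignType)),
    ∑ r, (g r).totalDegree ≤ D ∧ ∀ x, x ∈ S ↔ (fun r => SignType.sign (eval x (g r))) ∈ Φ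

/-- The cells `x` of `[n]^m` can be placed at points `p x` of `ℝ^d` (not necessarily distinct) such that
every level set `{x : C_j x = v}` is described by a semialgebraic set `S_{j,v}` of complexity at most
`D`, where errors are allowed: the number of triples `(j, v, x)` for which `x` is wrongly put in or
left out of the level set `v` of `C_j` is at most one quarter of the number `k n ^ m` of triples
`(j, v, x)` with `C_j x = v`. -/
def Roughly {m n k : ℕ} (d D : ℕ) (C : Fin k → (Fin m → Fin n) → Fin n) : Prop :=
  ∃ (p : (Fin m → Fin n) → Fin d → ℝ) (S : Fin k → Fin n → Set (Fin d → ℝ)),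
    (∀ j v, SemiAlg d D (S j v)) ∧
      4 * ∑ j, ∑ v, (univ.filter (fun x => ¬ (p x ∈ S j v ↔ C j x = v))).card ≤ k * n ^ m

/-- The cells are placed at the points `p x` of `ℝ^d`, and every level set of the cubes is the set of
the cells in a semialgebraic set of complexity at most `D`. -/
def Exactly {m n k : ℕ} (d D : ℕ) (p : (Fin m → Fin n) → Fin d → ℝ)
    (C : Fin k → (Fin m → Fin n) → Fin n) : Prop :=
  ∀ j v, ∃ S, SemiAlg d D S ∧ ∀ x, p x ∈ S ↔ C j x = v

end Pool.Agent.U671.VS
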