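import Pool.Agent.U671.VS.Count
import Pool.Agent.U671.VS.Defs
import Pool.Agent.U671.SD.Cells
import Pool.Agent.H430R2.PermCubes.Upper

/-!
The upper bound for variational sets with semialgebraic level sets.
-/

set_option autoImplicit false

namespace Pool.Agent.U671.VS

open MvPolynomial Finset Pool.Agent.H430R2.PermCubes

open scoped Classical

open Pool.Agent.R98.EQ Pool.Agent.U671.SD in
theorem level0 (d : ℕ) (hd : 1 ≤ d) : ∃ K : ℕ, 1 ≤ K ∧
    ∀ (V ι : Type) [Fintype V] [Fintype ι] (B : ι → Finset V) (r lam D : ℕ)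
      (p : V → Fin d → ℝ) (S : ι → Set (Fin d → ℝ)), (∀ j, SemiAlg d D (S j)) →
      (∀ x, (univ.filter (fun j => x ∈ B j)).card = r) →
      (∀ x y, x ≠ y → (univ.filter (fun j => x ∈ B j ∧ y ∈ B j)).card ≤ lam) →
      4 * ∑ j, (univ.filter (fun x => ¬ (p x ∈ S j ↔ x ∈ B j))).card ≤ r * Fintype.card V →
      ∀ L, 2 * D ≤ 2 ^ L → 24 * K * 2 ^ (d * L) ≤ Fintype.card V → 16 * lam ≤ r →
        r ^ 2 * Fintype.card V * 2 ^ (d * L) ≤ 4 * Fintype.card ι *
          (K * (2 * D) * 2 ^ ((d - 1) * L)) * (r * 2 ^ (d * L) + lam * Fintype.card V) := by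
  obtain ⟨K, hK, hcells⟩ := cells d hd
  refine ⟨K, hK, ?_⟩
  intro V ι _ _ B r lam D p S hS hr hl hE L hL h24 h16
  let e : Fin (Fintype.card V) ≃ V := (Fintype.equivFin V).symm
  obtain ⟨κ, hκ, c0, h1, h2, h3, h4⟩ := hcells (Fintype.card V) (fun i => p (e i)) L D hL
  set c : V → Option κ := fun y => c0 (e.symm y) with hc
  have hcard : ∀ o : Option κ, (univ.filter (fun y => c y = o)).card =
      (univ.filter (fun i => c0 i = o)).card := by
    intro o
    refine Finset.card_bij' (fun y _ => e.symm y) (fun i _ => e i) ?_ ?_ ?_ ?_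
    · intro y hy
      rw [Finset.mem_filter] at hy ⊢
      exact ⟨mem_univ _, hy.2⟩
    · intro i hi
      rw [Finset.mem_filter] at hi ⊢
      refine ⟨mem_univ _, ?_⟩
      rw [hc]
      simp only [Equiv.symm_apply_apply]
      exact hi.2
    · intro y _
      exact e.apply_symm_apply y
    · intro i _
      exact e.symm_apply_apply i
  refine count B (fun j => univ.filter (fun x => p x ∈ S j)) r lam hr hl c K (2 ^ (d * L))
    (K * (2 * D) * 2 ^ ((d - 1) * L)) Nat.one_le_two_pow h1 ?_ ?_ ?_ ?_ h24 h16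
  · rw [hcard none]
    exact h2
  · intro s
    rw [hcard (some s)]
    exact h3 s
  · intro j
    obtain ⟨t, g, Φ, hg1, hg2⟩ := hS j
    refine le_trans (Finset.card_le_card ?_) (h4 (List.ofFn g) (by
      unfold degSum
      rw [List.map_ofFn, List.sum_ofFn]
      exact hg1))
    intro s hs
    rw [Finset.mem_filter] at hs ⊢
    obtain ⟨_, y, y', hy, hy', hyT, hy'T⟩ := hs
    rw [Finset.mem_filter] at hyT hy'T
    refine ⟨mem_univ _, e.symm y, e.symm y', hy, hy', ?_⟩
    by_contra hcon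
    have h5 : (fun r => SignType.sign (eval (p y) (g r))) =
        fun r => SignType.sign (eval (p y') (g r)) := by
      funext r
      by_contra h6
      refine hcon ⟨g r, List.mem_ofFn.2 ⟨r, rfl⟩, ?_⟩
      rw [e.apply_symm_apply, e.apply_symm_apply]
      exact h6
    refine hy'T ⟨mem_univ _, ?_⟩
    rw [hg2, ← h5, ← hg2]
    exact hyT.2
  · refine le_trans (Nat.mul_le_mul_left _ (Finset.sum_le_sum fun j _ => ?_)) hE
    rw [← Finset.card_union_of_disjoint]
    · refine Finset.card_le_card ?_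
      intro x hx
      rw [Finset.mem_union, Finset.mem_sdiff, Finset.mem_sdiff, Finset.mem_filter] at hx
      rw [Finset.mem_filter]
      refine ⟨mem_univ _, ?_⟩
      simp only [mem_univ, true_and] at hx
      tauto
    · rw [Finset.disjoint_left]
      intro x hx hx'
      rw [Finset.mem_sdiff] at hx hx'
      exact hx.2 hx'.1

theorem level (d : ℕ) (hd : 1 ≤ d) : ∃ K : ℕ, 1 ≤ K ∧
    ∀ (m n k D : ℕ) (C : Fin k → (Fin m → Fin n) → Fin n), 2 ≤ m → 2 ≤ n → IsArray m n k C →
      Roughly d D C → 16 * (m - 1) ≤ k → ∀ L, 2 * D ≤ 2 ^ L →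
        16 * K * D * n * 2 ^ ((d - 1) * L) ≤ n ^ m → 24 * K * 2 ^ (d * L) ≤ n ^ m →
        k * 2 ^ L ≤ 16 * K * n * D * (m - 1) := by
  obtain ⟨K, hK, hlev⟩ := level0 d hd
  refine ⟨K, hK, ?_⟩
  intro m n k D C hm hn hC hR h16 L hL hA1 hA2
  obtain ⟨p, S, hS, hE⟩ := hR
  have hcardV : Fintype.card (Fin m → Fin n) = n ^ m := by
    rw [Fintype.card_fun, Fintype.card_fin, Fintype.card_fin]
  have hcount := hlev (Fin m → Fin n) (Fin k × Fin n) (fun j => univ.filter (fun x => C j.1 x = j.2))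
    k (m - 1) D p (fun j => S j.1 j.2) (fun j => hS j.1 j.2) ?_ ?_ ?_ L hL (by rw [hcardV]; exact hA2)
    h16
  · -- the conclusion
    rw [hcardV, Fintype.card_prod, Fintype.card_fin, Fintype.card_fin] at hcount
    rcases Nat.eq_zero_or_pos k with hk0 | hk0
    · rw [hk0, Nat.zero_mul]
      exact Nat.zero_le _
    have e1 : 2 ^ (d * L) = 2 ^ ((d - 1) * L) * 2 ^ L := by
      rw [← pow_add]
      congr 1
      obtain ⟨d', rfl⟩ : ∃ d', d = d' + 1 := ⟨d - 1, by omega⟩
      rw [Nat.add_sub_cancel]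
      ring
    set P : ℕ := 2 ^ ((d - 1) * L) with hP
    have hP0 : 0 < P := by positivity
    set Q : ℕ := 2 ^ L with hQ
    have hQ0 : 0 < Q := by positivity
    set v : ℕ := n ^ m with hv
    have hv0 : 0 < v := by positivity
    rw [e1] at hcount
    -- `k v P Q ≤ 8 n K D P (k P Q + (m - 1) v)`
    have s1 : k * (k * v * (P * Q)) ≤ k * (8 * n * K * D * P * (k * (P * Q) + (m - 1) * v)) := by
      calc k * (k * v * (P * Q)) = k ^ 2 * v * (P * Q) := by ring
        _ ≤ _ := hcount
        _ = _ := by ring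
    have s2 := Nat.le_of_mul_le_mul_left s1 hk0
    have s3 : 16 * K * D * n * P * (k * (P * Q)) ≤ v * (k * (P * Q)) := Nat.mul_le_mul_right _ hA1
    have s4 : k * v * (P * Q) ≤ 16 * n * K * D * P * ((m - 1) * v) := by
      have e2 : 8 * n * K * D * P * (k * (P * Q) + (m - 1) * v) =
          8 * n * K * D * P * (k * (P * Q)) + 8 * n * K * D * P * ((m - 1) * v) := by ring
      rw [e2] at s2
      have e3 : 16 * K * D * n * P * (k * (P * Q)) = 2 * (8 * n * K * D * P * (k * (P * Q))) := by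
        ring
      have e4 : v * (k * (P * Q)) = k * v * (P * Q) := by ring
      have e5 : 16 * n * K * D * P * ((m - 1) * v) = 2 * (8 * n * K * D * P * ((m - 1) * v)) := by
        ring
      rw [e3, e4] at s3
      rw [e5]
      omega
    have s5 : v * P * (k * Q) ≤ v * P * (16 * K * n * D * (m - 1)) := by
      calc v * P * (k * Q) = k * v * (P * Q) := by ring
        _ ≤ _ := s4
        _ = _ := by ring
    exact Nat.le_of_mul_le_mul_left s5 (by positivity)
  · -- every cell is in `k` level sets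
    intro x
    have h5 : (univ.filter (fun j : Fin k × Fin n => C j.1 x = j.2)).card =
        (univ : Finset (Fin k)).card := by
      refine Finset.card_bij' (fun j _ => j.1) (fun j _ => (j, C j x)) ?_ ?_ ?_ ?_
      · intro j _
        exact mem_univ _
      · intro j _
        rw [Finset.mem_filter]
        exact ⟨mem_univ _, rfl⟩
      · rintro ⟨j, v⟩ hj
        rw [Finset.mem_filter] at hj
        exact Prod.ext rfl hj.2
      · intro j _
        rfl
    rw [Finset.card_univ, Fintype.card_fin] at h5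
    refine Eq.trans ?_ h5
    congr 1
    ext j
    simp only [mem_filter, mem_univ, true_and]
  · -- two cells are in at most `m - 1` level sets
    intro x y hxy
    have h5 : (univ.filter (fun j : Fin k × Fin n => C j.1 x = j.2 ∧ C j.1 y = j.2)).card ≤
        (agree C x y).card := by
      refine Finset.card_le_card_of_injOn (fun j => j.1) ?_ ?_
      · intro j hj
        rw [Finset.mem_coe, Finset.mem_filter] at hj
        rw [Finset.mem_coe, agree, Finset.mem_filter]
        exact ⟨mem_univ _, hj.2.1.trans hj.2.2.symm⟩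
      · rintro ⟨j, v⟩ hj ⟨j', v'⟩ hj' hjj
        rw [Finset.mem_coe, Finset.mem_filter] at hj hj'
        have h6 : j = j' := hjj
        have h7 : C j x = v := hj.2.1
        have h8 : C j' x = v' := hj'.2.1
        subst h6
        rw [h7] at h8
        rw [h8]
    have h6 := hC.card_agree hxy
    have h7 : (univ.filter (fun j : Fin k × Fin n => C j.1 x = j.2 ∧ C j.1 y = j.2)).card ≤
        m - 1 := by omega
    refine le_trans (le_of_eq ?_) h7
    congr 1
    ext j
    simp only [mem_filter, mem_univ, true_and]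
  · rw [hcardV, Fintype.sum_prod_type]
    refine le_trans (Nat.mul_le_mul_left _ (Finset.sum_le_sum fun j _ => Finset.sum_le_sum
      fun v _ => ?_)) hE
    refine Finset.card_le_card ?_
    intro x hx
    simp only [mem_filter, mem_univ, true_and] at hx ⊢
    exact hx

/-- The bound. -/
theorem bound (d : ℕ) (hd : 1 ≤ d) : ∃ c : ℕ, 1 ≤ c ∧
    ∀ (m n k D : ℕ) (C : Fin k → (Fin m → Fin n) → Fin n), 2 ≤ m → 2 ≤ n → 1 ≤ D →
      IsArray m n k C → Roughly d D C →
      k ≤ c * m ∨ k ^ (d - 1) * n ^ m ≤ c * m ^ (d - 1) * (D * n) ^ d := by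
  obtain ⟨K, hK, hlev⟩ := level d hd
  refine ⟨24 * K * (32 * K) ^ d, Nat.one_le_iff_ne_zero.2 (by positivity), ?_⟩
  intro m n k D C hm hn hD hC hR
  have hKd : 1 ≤ (32 * K) ^ d := Nat.one_le_pow _ _ (by omega)
  rcases Nat.lt_or_ge k (16 * (m - 1)) with hk | hk
  · left
    calc k ≤ 16 * (m - 1) := hk.le
      _ ≤ 24 * m := by omega
      _ = 24 * 1 * 1 * m := by ring
      _ ≤ 24 * K * (32 * K) ^ d * m := by gcongr
  right
  have hmk : m ≤ k := by omega
  have htriv : k ≤ m * n := by
    have h1 := hC.le_general hm hn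
    obtain ⟨m', rfl⟩ : ∃ m', m = m' + 1 := ⟨m - 1, by omega⟩
    obtain ⟨n', rfl⟩ : ∃ n', n = n' + 1 := ⟨n - 1, by omega⟩
    have h2 : (m' + 1) * (n' + 1) = m' * n' + m' + n' + 1 := by ring
    rw [h2]
    omega
  have hkey : ∃ W : ℕ, k * W ≤ 32 * K * (m * n * D) ∧
      (n ^ m < 16 * K * D * n * W ^ (d - 1) ∨ n ^ m < 24 * K * W ^ d) := by
    set P : ℕ → Prop := fun L => 16 * K * D * n * 2 ^ ((d - 1) * L) ≤ n ^ m ∧
      24 * K * 2 ^ (d * L) ≤ n ^ m with hP
    have hfail : ∀ L, ¬ P L → n ^ m < 16 * K * D * n * (2 ^ L) ^ (d - 1) ∨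
        n ^ m < 24 * K * (2 ^ L) ^ d := by
      intro L hL
      rw [hP] at hL
      simp only [not_and_or, not_le] at hL
      rw [← pow_mul, ← pow_mul, Nat.mul_comm L, Nat.mul_comm L]
      exact hL
    by_cases hP0 : P 0
    · have hex : ∃ L, ¬ P L := by
        refine ⟨n ^ m, fun h => ?_⟩
        have h1 := h.2
        have h2 : n ^ m < 2 ^ (n ^ m) := Nat.lt_two_pow_self
        have h3 : 2 ^ (n ^ m) ≤ 2 ^ (d * n ^ m) :=
          Nat.pow_le_pow_right (by norm_num) (Nat.le_mul_of_pos_left _ hd)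
        have h4 : 2 ^ (d * n ^ m) ≤ 24 * K * 2 ^ (d * n ^ m) :=
          Nat.le_mul_of_pos_left _ (by positivity)
        omega
      set L1 := Nat.find hex with hL1
      have hL1a : ¬ P L1 := Nat.find_spec hex
      have hL1b : L1 ≠ 0 := fun h => hL1a (h ▸ hP0)
      obtain ⟨L, hL⟩ : ∃ L, L1 = L + 1 := ⟨L1 - 1, by omega⟩
      have hPL : P L := by
        by_contra hcon
        have := Nat.find_min' hex hcon
        omega
      refine ⟨2 ^ L1, ?_, hfail L1 hL1a⟩
      rw [hL, pow_succ]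
      by_cases hc : 2 * D ≤ 2 ^ L
      · have h1 := hlev m n k D C hm hn hC hR hk L hc hPL.1 hPL.2
        calc k * (2 ^ L * 2) = 2 * (k * 2 ^ L) := by ring
          _ ≤ 2 * (16 * K * n * D * (m - 1)) := Nat.mul_le_mul_left _ h1
          _ ≤ 2 * (16 * K * n * D * m) :=
            Nat.mul_le_mul_left _ (Nat.mul_le_mul_left _ (Nat.sub_le _ _))
          _ = _ := by ring
      · push Not at hc
        calc k * (2 ^ L * 2) ≤ (m * n) * (2 * D * 2) := by gcongr
          _ = 4 * 1 * (m * n * D) := by ring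
          _ ≤ 32 * K * (m * n * D) := by
            gcongr
            norm_num
    · refine ⟨1, ?_, ?_⟩
      · calc k * 1 = k := Nat.mul_one _
          _ ≤ m * n := htriv
          _ = 1 * 1 * (m * n * 1) := by ring
          _ ≤ 32 * K * (m * n * D) := by
            gcongr
            norm_num
      · have := hfail 0 hP0
        simpa using this
  obtain ⟨W, hW1, hW2⟩ := hkey
  obtain ⟨d', rfl⟩ : ∃ d', d = d' + 1 := ⟨d - 1, by omega⟩
  rw [Nat.add_sub_cancel] at *
  rcases hW2 with hW2 | hW2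
  · calc k ^ d' * n ^ m ≤ k ^ d' * (16 * K * D * n * W ^ d') := Nat.mul_le_mul_left _ hW2.le
      _ = 16 * K * D * n * (k * W) ^ d' := by rw [mul_pow]; ring
      _ ≤ 16 * K * D * n * (32 * K * (m * n * D)) ^ d' :=
        Nat.mul_le_mul_left _ (Nat.pow_le_pow_left hW1 _)
      _ = 16 * K * (32 * K) ^ d' * m ^ d' * (D * n) ^ (d' + 1) := by
        rw [mul_pow, mul_pow (m * n) D, mul_pow m n, mul_pow D n]
        ring
      _ ≤ 24 * K * (32 * K) ^ (d' + 1) * m ^ d' * (D * n) ^ (d' + 1) := by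
        gcongr
        · norm_num
        · omega
        · omega
  · have h1 : k * (k ^ d' * n ^ m) ≤
        k * (24 * K * (32 * K) ^ (d' + 1) * m ^ d' * (D * n) ^ (d' + 1)) := by
      calc k * (k ^ d' * n ^ m) = k ^ (d' + 1) * n ^ m := by ring
        _ ≤ k ^ (d' + 1) * (24 * K * W ^ (d' + 1)) := Nat.mul_le_mul_left _ hW2.le
        _ = 24 * K * (k * W) ^ (d' + 1) := by rw [mul_pow]; ring
        _ ≤ 24 * K * (32 * K * (m * n * D)) ^ (d' + 1) :=
          Nat.mul_le_mul_left _ (Nat.pow_le_pow_left hW1 _)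
        _ = m * (24 * K * (32 * K) ^ (d' + 1) * m ^ d' * (D * n) ^ (d' + 1)) := by
          rw [mul_pow, mul_pow (m * n) D, mul_pow m n, mul_pow D n]
          ring
        _ ≤ _ := Nat.mul_le_mul_right _ hmk
    exact Nat.le_of_mul_le_mul_left h1 (by omega)

end Pool.Agent.U671.VS
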