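import Mathlib

/-!
Counting incidences between points and blocks in cells, if every point is in `r` blocks, every pair
of points in at most `lam` blocks, and the blocks are described, up to a few errors, by sets which
cut few cells.
-/

set_option autoImplicit false

namespace Pool.Agent.U671.VS

open Finset

open scoped Classical

variable {V ι : Type} [Fintype V] [Fintype ι]

theorem inc (B : ι → Finset V) (X : Finset V) :
    ∑ j, (B j ∩ X).card = ∑ x ∈ X, (univ.filter (fun j => x ∈ B j)).card := by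
  have e1 : ∀ j, (B j ∩ X).card = ∑ x ∈ X, if x ∈ B j then 1 else 0 := by
    intro j
    rw [← Finset.sum_filter, ← Finset.card_eq_sum_ones]
    congr 1
    ext y
    simp only [mem_inter, mem_filter]
    tauto
  rw [Finset.sum_congr rfl (fun j _ => e1 j), Finset.sum_comm]
  refine Finset.sum_congr rfl fun y _ => ?_
  rw [← Finset.sum_filter, ← Finset.card_eq_sum_ones]

theorem pairs (B : ι → Finset V) (r lam : ℕ) (hr : ∀ x, (univ.filter (fun j => x ∈ B j)).card = r)
    (hl : ∀ x y, x ≠ y → (univ.filter (fun j => x ∈ B j ∧ y ∈ B j)).card ≤ lam) (X : Finset V) :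
    ∑ j, (B j ∩ X).card ^ 2 ≤ r * X.card + lam * X.card ^ 2 := by
  have e1 : ∀ j, (B j ∩ X).card ^ 2 = ∑ x ∈ X, ∑ y ∈ X, if x ∈ B j ∧ y ∈ B j then 1 else 0 := by
    intro j
    have h0 : (B j ∩ X).card = ∑ x ∈ X, if x ∈ B j then 1 else 0 := by
      rw [← Finset.sum_filter, ← Finset.card_eq_sum_ones]
      congr 1
      ext y
      simp only [mem_inter, mem_filter]
      tauto
    rw [pow_two, h0, Finset.sum_mul_sum]
    refine Finset.sum_congr rfl fun x _ => Finset.sum_congr rfl fun y _ => ?_
    by_cases hx : x ∈ B j <;> by_cases hy : y ∈ B j <;> simp [hx, hy]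
  rw [Finset.sum_congr rfl (fun j _ => e1 j), Finset.sum_comm]
  have e2 : ∀ x ∈ X, ∑ j, ∑ y ∈ X, (if x ∈ B j ∧ y ∈ B j then 1 else 0) ≤ r + lam * X.card := by
    intro x hx
    rw [Finset.sum_comm, ← Finset.add_sum_erase _ _ hx]
    refine Nat.add_le_add ?_ ?_
    · rw [← hr x, ← Finset.sum_filter, ← Finset.card_eq_sum_ones]
      refine Finset.card_le_card fun j hj => ?_
      simp only [mem_filter, mem_univ, true_and] at hj ⊢
      exact hj.1
    · have : ∀ y ∈ X.erase x, ∑ j, (if x ∈ B j ∧ y ∈ B j then 1 else 0) ≤ lam := by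
        intro y hy
        rw [← Finset.sum_filter, ← Finset.card_eq_sum_ones]
        exact hl x y (Finset.ne_of_mem_erase hy).symm
      refine (Finset.sum_le_sum this).trans ?_
      rw [Finset.sum_const, smul_eq_mul, Nat.mul_comm]
      exact Nat.mul_le_mul_left _ (Finset.card_le_card (Finset.erase_subset _ _))
  refine (Finset.sum_le_sum e2).trans ?_
  rw [Finset.sum_const, smul_eq_mul, pow_two]
  exact le_of_eq (by ring)

theorem count (B S : ι → Finset V) (r lam : ℕ)
    (hr : ∀ x, (univ.filter (fun j => x ∈ B j)).card = r)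
    (hl : ∀ x y, x ≠ y → (univ.filter (fun j => x ∈ B j ∧ y ∈ B j)).card ≤ lam)
    {κ : Type} [Fintype κ] (c : V → Option κ) (K N t : ℕ) (hN : 1 ≤ N)
    (hκ : Fintype.card κ ≤ K * N) (hnone : (univ.filter (fun i => c i = none)).card ≤ K * N)
    (hcell : ∀ s, (univ.filter (fun i => c i = some s)).card * N ≤ Fintype.card V)
    (ht : ∀ j, (univ.filter (fun s : κ => ∃ i i', c i = some s ∧ c i' = some s ∧
      i ∈ S j ∧ i' ∉ S j)).card ≤ t)
    (hE : 4 * ∑ j, ((B j \ S j).card + (S j \ B j).card) ≤ r * Fintype.card V)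
    (h24 : 24 * K * N ≤ Fintype.card V) (h16 : 16 * lam ≤ r) :
    r ^ 2 * Fintype.card V * N ≤
      4 * Fintype.card ι * t * (r * N + lam * Fintype.card V) := by
  set v : ℕ := Fintype.card V with hv
  set cl : κ → Finset V := fun s => univ.filter (fun i => c i = some s) with hcl
  set no : Finset V := univ.filter (fun i => c i = none) with hno
  -- total number of incidences
  have htot : ∑ j, (B j).card = r * v := by
    have h := inc B univ
    rw [Finset.sum_congr rfl (fun x _ => hr x), Finset.sum_const, Finset.card_univ, smul_eq_mul] at h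
    rw [Finset.sum_congr rfl (fun j _ => by rw [Finset.inter_univ])] at h
    rw [h, Nat.mul_comm]
  have hnoinc : ∑ j, (B j ∩ no).card ≤ K * N * r := by
    rw [inc B no, Finset.sum_congr rfl (fun x _ => hr x), Finset.sum_const, smul_eq_mul]
    exact Nat.mul_le_mul_right _ hnone
  -- the cut cells
  set W : ι → Finset κ := fun j => univ.filter (fun s : κ => ∃ i i', c i = some s ∧
    c i' = some s ∧ i ∈ S j ∧ i' ∉ S j) with hW
  set T : ι → ℕ := fun j => ∑ s ∈ W j, (B j ∩ cl s).card with hT
  set In : ι → Finset κ := fun j => univ.filter (fun s : κ => (cl s).Nonempty ∧ cl s ⊆ S j) with hIn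
  have hsplit : ∀ j, (B j).card ≤ (B j ∩ no).card + (B j \ S j).card + T j +
      ∑ s ∈ In j, (B j ∩ cl s).card := by
    intro j
    have hsub : B j ⊆ ((B j ∩ no) ∪ (B j \ S j)) ∪ (((W j).biUnion (fun s => B j ∩ cl s)) ∪
        ((In j).biUnion (fun s => B j ∩ cl s))) := by
      intro x hx
      by_cases hxS : x ∈ S j
      · rcases hcx : c x with _ | s
        · refine Finset.mem_union_left _ (Finset.mem_union_left _ ?_)
          rw [Finset.mem_inter, hno, Finset.mem_filter]
          exact ⟨hx, mem_univ _, hcx⟩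
        · have hxs : x ∈ B j ∩ cl s := by
            rw [Finset.mem_inter, hcl, Finset.mem_filter]
            exact ⟨hx, mem_univ _, hcx⟩
          refine Finset.mem_union_right _ ?_
          by_cases hcut : cl s ⊆ S j
          · refine Finset.mem_union_right _ ?_
            rw [Finset.mem_biUnion]
            refine ⟨s, ?_, hxs⟩
            rw [hIn, Finset.mem_filter]
            exact ⟨mem_univ _, ⟨x, (Finset.mem_inter.1 hxs).2⟩, hcut⟩
          · refine Finset.mem_union_left _ ?_
            rw [Finset.mem_biUnion]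
            refine ⟨s, ?_, hxs⟩
            rw [Finset.not_subset] at hcut
            obtain ⟨y, hy, hyS⟩ := hcut
            rw [hW, Finset.mem_filter]
            exact ⟨mem_univ _, x, y, hcx, (Finset.mem_filter.1 hy).2, hxS, hyS⟩
      · refine Finset.mem_union_left _ (Finset.mem_union_right _ ?_)
        rw [Finset.mem_sdiff]
        exact ⟨hx, hxS⟩
    refine (Finset.card_le_card hsub).trans ((Finset.card_union_le _ _).trans ?_)
    have h1 := Finset.card_union_le (B j ∩ no) (B j \ S j)
    have h2 := Finset.card_union_le ((W j).biUnion (fun s => B j ∩ cl s))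
      ((In j).biUnion (fun s => B j ∩ cl s))
    have h3 : ((W j).biUnion (fun s => B j ∩ cl s)).card ≤ T j := Finset.card_biUnion_le
    have h4 : ((In j).biUnion (fun s => B j ∩ cl s)).card ≤
        ∑ s ∈ In j, (B j ∩ cl s).card := Finset.card_biUnion_le
    omega
  -- sizes of the cells
  have hclsum : ∑ s, (cl s).card ≤ v := by
    have h2 : ∑ s, (cl s).card = (univ.biUnion cl).card := by
      rw [Finset.card_biUnion]
      intro s _ s' _ hss
      show Disjoint (cl s) (cl s')
      rw [Finset.disjoint_left]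
      intro i hi hi'
      rw [hcl, Finset.mem_filter] at hi hi'
      rw [hi.2] at hi'
      exact hss (Option.some.inj hi'.2)
    rw [h2]
    exact Finset.card_le_univ _
  have hdisj : ∀ j, ∑ s ∈ In j, ((cl s) \ B j).card ≤ (S j \ B j).card := by
    intro j
    have h2 : ∑ s ∈ In j, ((cl s) \ B j).card = ((In j).biUnion (fun s => cl s \ B j)).card := by
      rw [Finset.card_biUnion]
      intro s _ s' _ hss
      show Disjoint (cl s \ B j) (cl s' \ B j)
      rw [Finset.disjoint_left]
      intro i hi hi'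
      rw [Finset.mem_sdiff, hcl, Finset.mem_filter] at hi hi'
      rw [hi.1.2] at hi'
      exact hss (Option.some.inj hi'.1.2)
    rw [h2]
    refine Finset.card_le_card ?_
    intro x hx
    rw [Finset.mem_biUnion] at hx
    obtain ⟨s, hs, hxs⟩ := hx
    rw [Finset.mem_sdiff] at hxs ⊢
    exact ⟨(Finset.mem_filter.1 hs).2.2 hxs.1, hxs.2⟩
  -- contained cells, in reals
  have hsq : ∀ s, (∑ j, ((B j ∩ cl s).card : ℝ) ^ 2) ≤ r * (cl s).card +
      lam * ((cl s).card : ℝ) ^ 2 := by
    intro s
    have h := pairs B r lam hr hl (cl s)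
    exact_mod_cast h
  have hcont : (∑ j, ∑ s ∈ In j, ((B j ∩ cl s).card : ℝ)) ≤
      (∑ j, ((S j \ B j).card : ℝ)) + 2 * (K * N * r) + 2 * (lam * v) := by
    have h1 : ∀ j, ∀ s ∈ In j, ((B j ∩ cl s).card : ℝ) ≤ ((cl s \ B j).card : ℝ) +
        2 / (cl s).card * ((B j ∩ cl s).card : ℝ) ^ 2 := by
      intro j s hs
      have hne : 0 < (cl s).card := Finset.card_pos.2 (Finset.mem_filter.1 hs).2.1
      have hne' : (0 : ℝ) < (cl s).card := by exact_mod_cast hne
      have h2 : ((cl s \ B j).card : ℝ) = (cl s).card - (B j ∩ cl s).card := by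
        have h3 := Finset.card_sdiff_add_card_inter (cl s) (B j)
        rw [Finset.inter_comm] at h3
        rw [← h3]
        push_cast
        ring
      rw [h2]
      set a : ℝ := ((cl s).card : ℝ) with ha
      set b : ℝ := ((B j ∩ cl s).card : ℝ) with hb
      have h4 : a * b ≤ a * (a - b) + 2 * b ^ 2 := by nlinarith [sq_nonneg (a - b), sq_nonneg (a - 2 * b), sq_nonneg b]
      have h5 : 2 / a * b ^ 2 = (2 * b ^ 2) / a := by ring
      rw [h5]
      have h6 : b - (a - b) ≤ 2 * b ^ 2 / a := by
        rw [le_div_iff₀ hne']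
        nlinarith
      linarith
    have h2 : (∑ j, ∑ s ∈ In j, ((B j ∩ cl s).card : ℝ)) ≤
        ∑ j, (((S j \ B j).card : ℝ) + ∑ s ∈ univ.filter (fun s => (cl s).Nonempty),
          2 / (cl s).card * ((B j ∩ cl s).card : ℝ) ^ 2) := by
      refine Finset.sum_le_sum fun j _ => ?_
      refine (Finset.sum_le_sum (h1 j)).trans ?_
      rw [Finset.sum_add_distrib]
      refine add_le_add ?_ ?_
      · have := hdisj j
        exact_mod_cast this
      · refine Finset.sum_le_sum_of_subset_of_nonneg ?_ (fun _ _ _ => by positivity)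
        intro s hs
        rw [Finset.mem_filter]
        exact ⟨mem_univ _, (Finset.mem_filter.1 hs).2.1⟩
    refine h2.trans ?_
    rw [Finset.sum_add_distrib, Finset.sum_comm (s := univ) (t := univ.filter _), add_assoc]
    refine add_le_add le_rfl ?_
    have h3 : ∀ s ∈ univ.filter (fun s => (cl s).Nonempty),
        ∑ j, 2 / ((cl s).card : ℝ) * ((B j ∩ cl s).card : ℝ) ^ 2 ≤
          2 * (r : ℝ) + 2 * (lam : ℝ) * ((cl s).card : ℝ) := by
      intro s hs
      have hne : 0 < (cl s).card := Finset.card_pos.2 (Finset.mem_filter.1 hs).2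
      have hne' : (0 : ℝ) < (cl s).card := by exact_mod_cast hne
      rw [← Finset.mul_sum]
      calc 2 / ((cl s).card : ℝ) * ∑ j, ((B j ∩ cl s).card : ℝ) ^ 2
          ≤ 2 / ((cl s).card : ℝ) * (r * (cl s).card + lam * ((cl s).card : ℝ) ^ 2) :=
            mul_le_mul_of_nonneg_left (hsq s) (by positivity)
        _ = 2 * (r : ℝ) + 2 * (lam : ℝ) * ((cl s).card : ℝ) := by field_simp
    refine (Finset.sum_le_sum h3).trans ?_
    rw [Finset.sum_add_distrib, Finset.sum_const, nsmul_eq_mul, ← Finset.mul_sum]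
    have h4 : ((univ.filter (fun s => (cl s).Nonempty)).card : ℝ) ≤ K * N := by
      have : (univ.filter (fun s => (cl s).Nonempty)).card ≤ K * N :=
        (Finset.card_filter_le _ _).trans hκ
      exact_mod_cast this
    have h5 : (∑ s ∈ univ.filter (fun s => (cl s).Nonempty), ((cl s).card : ℝ)) ≤ v := by
      have : (∑ s ∈ univ.filter (fun s => (cl s).Nonempty), (cl s).card) ≤ v :=
        (Finset.sum_le_sum_of_subset (Finset.subset_univ _)).trans hclsum
      exact_mod_cast this
    have h6 : (0 : ℝ) ≤ 2 * r := by positivity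
    have h7 : (0 : ℝ) ≤ 2 * lam := by positivity
    have h8 := mul_le_mul_of_nonneg_right h4 h6
    have h9 := mul_le_mul_of_nonneg_left h5 h7
    linarith
  -- cut cells
  have hN0 : (0 : ℝ) < N := by exact_mod_cast hN
  have hcl2 : ∀ s, ((cl s).card : ℝ) * N ≤ v := by
    intro s
    exact_mod_cast hcell s
  have hTT : (∑ j, (T j : ℝ)) ^ 2 * N ≤
      Fintype.card ι * (t * (r * v * N + lam * (v : ℝ) ^ 2)) := by
    have h1 : ∀ j, (T j : ℝ) ^ 2 ≤ t * ∑ s, ((B j ∩ cl s).card : ℝ) ^ 2 := by
      intro j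
      have e : (T j : ℝ) = ∑ s ∈ W j, ((B j ∩ cl s).card : ℝ) := by
        rw [hT]
        push_cast
        rfl
      rw [e]
      refine sq_sum_le_card_mul_sum_sq.trans ?_
      refine mul_le_mul ?_ ?_ (Finset.sum_nonneg fun _ _ => sq_nonneg _) (Nat.cast_nonneg _)
      · exact_mod_cast ht j
      · exact Finset.sum_le_sum_of_subset_of_nonneg (Finset.subset_univ _)
          (fun _ _ _ => sq_nonneg _)
    have h2 : (∑ j, (T j : ℝ)) ^ 2 ≤ Fintype.card ι *
        (t * ∑ s, (r * (cl s).card + lam * ((cl s).card : ℝ) ^ 2)) := by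
      calc (∑ j, (T j : ℝ)) ^ 2 ≤ (univ : Finset ι).card * ∑ j, (T j : ℝ) ^ 2 :=
            sq_sum_le_card_mul_sum_sq
        _ ≤ Fintype.card ι * (t * ∑ s, (r * (cl s).card + lam * ((cl s).card : ℝ) ^ 2)) := by
            rw [Finset.card_univ]
            refine mul_le_mul_of_nonneg_left ?_ (Nat.cast_nonneg _)
            refine (Finset.sum_le_sum fun j _ => h1 j).trans ?_
            rw [← Finset.mul_sum, Finset.sum_comm]
            exact mul_le_mul_of_nonneg_left (Finset.sum_le_sum fun s _ => hsq s) (Nat.cast_nonneg _)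
    have h3 : (∑ s, (r * ((cl s).card : ℝ) + lam * ((cl s).card : ℝ) ^ 2)) * N ≤
        r * v * N + lam * (v : ℝ) ^ 2 := by
      have hs1 : (∑ s, ((cl s).card : ℝ)) ≤ v := by exact_mod_cast hclsum
      rw [Finset.sum_mul]
      calc ∑ s, (r * ((cl s).card : ℝ) + lam * ((cl s).card : ℝ) ^ 2) * N
          ≤ ∑ s, (r * N + lam * v) * ((cl s).card : ℝ) := by
            refine Finset.sum_le_sum fun s _ => ?_
            have h4 : (lam : ℝ) * ((cl s).card : ℝ) * (((cl s).card : ℝ) * N) ≤
                (lam : ℝ) * ((cl s).card : ℝ) * v :=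
              mul_le_mul_of_nonneg_left (hcl2 s) (by positivity)
            linarith
        _ = (r * N + lam * v) * ∑ s, ((cl s).card : ℝ) := by rw [Finset.mul_sum]
        _ ≤ (r * N + lam * v) * v := mul_le_mul_of_nonneg_left hs1 (by positivity)
        _ = r * v * N + lam * (v : ℝ) ^ 2 := by ring
    calc (∑ j, (T j : ℝ)) ^ 2 * N ≤ Fintype.card ι *
        (t * ∑ s, (r * (cl s).card + lam * ((cl s).card : ℝ) ^ 2)) * N :=
          mul_le_mul_of_nonneg_right h2 hN0.le
      _ = Fintype.card ι * (t *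
          ((∑ s, (r * ((cl s).card : ℝ) + lam * ((cl s).card : ℝ) ^ 2)) * N)) := by ring
      _ ≤ _ := by
          refine mul_le_mul_of_nonneg_left (mul_le_mul_of_nonneg_left h3 (Nat.cast_nonneg _))
            (Nat.cast_nonneg _)
  -- the sum
  have hTlow : (r : ℝ) * v / 2 ≤ ∑ j, (T j : ℝ) := by
    have h1 : ((r * v : ℕ) : ℝ) ≤ ∑ j, (((B j ∩ no).card : ℝ) + (B j \ S j).card + T j +
        ∑ s ∈ In j, ((B j ∩ cl s).card : ℝ)) := by
      rw [← htot]
      have := Finset.sum_le_sum fun j (_ : j ∈ (univ : Finset ι)) => hsplit j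
      exact_mod_cast this
    rw [Finset.sum_add_distrib, Finset.sum_add_distrib, Finset.sum_add_distrib] at h1
    have h2 : (∑ j, ((B j ∩ no).card : ℝ)) ≤ K * N * r := by exact_mod_cast hnoinc
    have h3 : 4 * ((∑ j, ((B j \ S j).card : ℝ)) + ∑ j, ((S j \ B j).card : ℝ)) ≤ r * v := by
      rw [← Finset.sum_add_distrib]
      exact_mod_cast hE
    have h4 : (24 : ℝ) * K * N * r ≤ v * r := by
      have : ((24 * K * N : ℕ) : ℝ) ≤ v := by exact_mod_cast h24
      push_cast at this
      exact mul_le_mul_of_nonneg_right this (Nat.cast_nonneg _)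
    have h5 : (16 : ℝ) * lam * v ≤ r * v := by
      have : ((16 * lam : ℕ) : ℝ) ≤ r := by exact_mod_cast h16
      push_cast at this
      exact mul_le_mul_of_nonneg_right this (Nat.cast_nonneg _)
    push_cast at h1
    linarith
  have hrv : (0 : ℝ) ≤ (r : ℝ) * v / 2 := by positivity
  have h1 : ((r : ℝ) * v / 2) ^ 2 * N ≤ Fintype.card ι * (t * (r * v * N + lam * (v : ℝ) ^ 2)) :=
    (mul_le_mul_of_nonneg_right (pow_le_pow_left₀ hrv hTlow 2) hN0.le).trans hTT
  rcases Nat.eq_zero_or_pos v with hv0 | hv0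
  · rw [hv0]
    simp
  · have hv0' : (0 : ℝ) < v := by exact_mod_cast hv0
    have h2 : (v : ℝ) * ((r : ℝ) ^ 2 * v * N) ≤
        v * (4 * Fintype.card ι * t * (r * N + lam * v)) := by nlinarith
    have h3 := le_of_mul_le_mul_left h2 hv0'
    exact_mod_cast h3

end Pool.Agent.U671.VS
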